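import Pool.Agent.Helper36.CV.StmtsR

set_option autoImplicit false

namespace Pool.Agent.Helper78.CV.R20

open Complex Filter Topology MeasureTheory Set Pool.Agent.Helper36.CV

noncomputable section

theorem sqrt5_sq : Real.sqrt 5 ^ 2 = 5 := Real.sq_sqrt (by norm_num)

theorem gam_irr : Irrational gam := by
  have h1 : Irrational (Real.sqrt 5) := by
    have := Nat.Prime.irrational_sqrt (p := 5) (by norm_num)
    simpa using this
  have h2 : Irrational (Real.sqrt 5 - ((1 : ℤ) : ℝ)) := h1.sub_intCast 1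
  have h3 : Irrational ((Real.sqrt 5 - ((1 : ℤ) : ℝ)) / ((2 : ℤ) : ℝ)) :=
    h2.div_intCast (by norm_num)
  have h4 : (Real.sqrt 5 - ((1 : ℤ) : ℝ)) / ((2 : ℤ) : ℝ) = gam := by
    unfold gam
    norm_num
  rw [← h4]
  exact h3

theorem dens (A B : ℝ) (h : A < B) : ∃ n m : ℤ, A < n + m * gam + 1 / 2 ∧ n + m * gam + 1 / 2 < B := by
  have h1 : Dense (AddSubgroup.closure {gam, 1} : Set ℝ) := by
    rw [dense_addSubgroupClosure_pair_iff, div_one]
    exact gam_irr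
  obtain ⟨x, hx, hx1, hx2⟩ := h1.exists_between (show A - 1 / 2 < B - 1 / 2 by linarith)
  obtain ⟨m, n, hmn⟩ := AddSubgroup.mem_closure_pair.1 hx
  refine ⟨n, m, ?_, ?_⟩
  · rw [zsmul_eq_mul, zsmul_eq_mul, mul_one] at hmn
    linarith
  · rw [zsmul_eq_mul, zsmul_eq_mul, mul_one] at hmn
    linarith

/-- the arithmetic fact -/
theorem arith (n m : ℤ) (k j : ℤ) (hn : n = 2 * k - 1) (hm : m = 2 * j) :
    1 ≤ |((n : ℝ) + m * gam)| * |(n : ℝ) + m * gam - Real.sqrt 5 * m| := by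
  have h1 : ((n : ℝ) + m * gam) * ((n : ℝ) + m * gam - Real.sqrt 5 * m) =
      ((n ^ 2 - n * m - m ^ 2 : ℤ) : ℝ) := by
    unfold gam
    push_cast
    have := sqrt5_sq
    linear_combination (-(m : ℝ) ^ 2 / 4) * this
  rw [← abs_mul, h1]
  have h2 : (n ^ 2 - n * m - m ^ 2 : ℤ) ≠ 0 := by
    intro h3
    rw [hn, hm] at h3
    have h4 : (2 * k - 1) ^ 2 - (2 * k - 1) * (2 * j) - (2 * j) ^ 2 =
      2 * (2 * k ^ 2 - 2 * k - (2 * k - 1) * j - 2 * j ^ 2) + 1 := by ring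
    omega
  have h3 : (1 : ℤ) ≤ |n ^ 2 - n * m - m ^ 2| := Int.one_le_abs h2
  exact_mod_cast h3

variable {Hm Hp : ℝ} {C : Set ℝ} (cd : CD Hm Hp C)

theorem cont : Continuous (Nf cd) := by
  have h1 : Continuous (fun t : ℝ => cd.f (t : ℂ)) :=
    cd.cont.comp_continuous Complex.continuous_ofReal (fun x => by simp)
  exact Complex.continuous_re.comp h1

theorem mono (x y : ℝ) (h : x ≤ y) : Nf cd x ≤ Nf cd y := cd.re_mono x y h

/-- separation of the labels from the half-integral point -/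
theorem sep (n' m' : ℤ) (ν : ℝ) (hν : ν = n' + m' * gam + 1 / 2) (W : Gap cd) :
    1 ≤ 4 * |W.N - ν| * (|W.N - ν| + |W.mu| + |Real.sqrt 5 * m'|) := by
  have h1 := arith (2 * (W.n - n') - 1) (2 * (W.m - m')) (W.n - n') (W.m - m') rfl rfl
  have h2 : (((2 * (W.n - n') - 1 : ℤ) : ℝ)) + ((2 * (W.m - m') : ℤ) : ℝ) * gam = 2 * (W.N - ν) := by
    rw [hν]
    unfold Gap.N
    push_cast
    ring
  have h3 : Real.sqrt 5 * ((2 * (W.m - m') : ℤ) : ℝ) = 2 * (W.mu - Real.sqrt 5 * m') := by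
    unfold Gap.mu
    push_cast
    ring
  rw [h2, h3] at h1
  have h4 : |2 * (W.N - ν)| = 2 * |W.N - ν| := by rw [abs_mul, abs_two]
  have h5 : |2 * (W.N - ν) - 2 * (W.mu - Real.sqrt 5 * m')| ≤
      2 * (|W.N - ν| + |W.mu| + |Real.sqrt 5 * m'|) := by
    have h6 : 2 * (W.N - ν) - 2 * (W.mu - Real.sqrt 5 * m') =
      2 * ((W.N - ν) - (W.mu - Real.sqrt 5 * m')) := by ring
    rw [h6, abs_mul, abs_two]
    have h7 := abs_sub (W.N - ν) (W.mu - Real.sqrt 5 * m')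
    have h8 := abs_sub W.mu (Real.sqrt 5 * m')
    linarith
  rw [h4] at h1
  have h9 : 0 ≤ 2 * |W.N - ν| := by positivity
  nlinarith [mul_le_mul_of_nonneg_left h5 h9]

theorem mu_big (n' m' : ℤ) (ν δ : ℝ) (hν : ν = n' + m' * gam + 1 / 2) (hδ : 0 < δ)
    (hδ1 : δ * (1 + |Real.sqrt 5 * m'|) ≤ 1 / 1000) (W : Gap cd) (hW : |W.N - ν| ≤ δ) :
    99 / 100 ≤ 4 * |W.N - ν| * |W.mu| := by
  have h1 := sep cd n' m' ν hν W
  have h2 : 0 ≤ |W.N - ν| := abs_nonneg _
  have h3 : 0 ≤ |Real.sqrt 5 * m'| := abs_nonneg _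
  have h4 : δ ≤ 1 / 1000 := by nlinarith
  have h5 : |W.N - ν| * (|W.N - ν| + |Real.sqrt 5 * m'|) ≤ δ * (1 + |Real.sqrt 5 * m'|) := by
    apply mul_le_mul hW _ (by positivity) hδ.le
    linarith
  nlinarith

/-- the bound for v on a gap with label near ν -/
theorem v_small {ε : ℝ} (hpar : Par ε Hm Hp) (hε : ε ≤ 1 / 10 ^ 4) (hP2 : ST_P2) (n' m' : ℤ)
    (ν δ : ℝ) (hν : ν = n' + m' * gam + 1 / 2) (hδ : 0 < δ)
    (hδ1 : δ * (1 + |Real.sqrt 5 * m'|) ≤ 1 / 1000) (W : Gap cd) (hW : |W.N - ν| ≤ δ) (t : ℝ)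
    (ht : t ∈ Icc W.a W.b) : vf cd t ≤ 11 / 10 * ε * |W.N - ν| := by
  obtain ⟨hε0, hHm, hHp⟩ := hpar
  obtain ⟨h1, h2, h3, h4, -⟩ := hP2 Hm Hp C cd hHm
  have h5 := (h4 W).2.2.2.1 t ht
  have h6 := mu_big cd n' m' ν δ hν hδ hδ1 W hW
  have h7 : |W.mu| * vf cd t ≤ Real.sqrt 5 * Hp := by
    unfold Gap.mu
    rw [abs_mul, abs_of_nonneg (Real.sqrt_nonneg 5), mul_assoc]
    exact mul_le_mul_of_nonneg_left h5 (Real.sqrt_nonneg 5)
  have h8 : 0 ≤ vf cd t := (h1 t).1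
  have h9 : 4 * (|W.mu| * vf cd t) ≤ ε * (1 + 98 * ε) := by linarith
  have h10 : 0 ≤ |W.N - ν| := abs_nonneg _
  have h11 : 99 / 100 * vf cd t ≤ 4 * |W.N - ν| * |W.mu| * vf cd t :=
    mul_le_mul_of_nonneg_right h6 h8
  have h12 : 4 * |W.N - ν| * |W.mu| * vf cd t ≤ |W.N - ν| * (ε * (1 + 98 * ε)) := by
    nlinarith [mul_le_mul_of_nonneg_left h9 h10]
  have h13 : ε * (1 + 98 * ε) ≤ 102 / 100 * ε := by nlinarith
  nlinarith [mul_le_mul_of_nonneg_left h13 h10]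

theorem qc_self (y : ℝ) (z : ℂ) (hz : z ∈ Uo) : qc y y z = z - y := by
  unfold qc
  have h0 : z - (y : ℂ) ≠ 0 := by
    intro h
    have h1 : (z - (y : ℂ)).im = 0 := by rw [h]; rfl
    rw [Complex.sub_im, Complex.ofReal_im, sub_zero] at h1
    have h2 : 0 < z.im := hz
    linarith
  rw [← Complex.cpow_add _ _ h0]
  norm_num

/-- from a small argument to real and imaginary parts -/
theorem arg_small (w : ℂ) (hw : |w.arg| ≤ 51 / 1000) : |w.im| ≤ 52 / 1000 * w.re := by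
  have h1 : ‖w‖ * Real.cos w.arg = w.re := Complex.norm_mul_cos_arg w
  have h2 : ‖w‖ * Real.sin w.arg = w.im := Complex.norm_mul_sin_arg w
  have h3 : 1 - w.arg ^ 2 / 2 ≤ Real.cos w.arg := Real.one_sub_sq_div_two_le_cos
  have h4 : |Real.sin w.arg| ≤ |w.arg| := Real.abs_sin_le_abs
  have h5 : w.arg ^ 2 ≤ (51 / 1000) ^ 2 := sq_le_sq' (by linarith [abs_le.1 hw]) (abs_le.1 hw).2
  rw [← h1, ← h2, abs_mul, abs_of_nonneg (norm_nonneg w)]
  have h6 : |Real.sin w.arg| ≤ 52 / 1000 * Real.cos w.arg := by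
    have : |Real.sin w.arg| ≤ 51 / 1000 := h4.trans hw
    nlinarith
  nlinarith [mul_le_mul_of_nonneg_left h6 (norm_nonneg w)]

/-- key estimate: size of a gap near y -/
theorem size {ε : ℝ} (hP1 : ST_P1) (hP2 : ST_P2) (hP3 : ST_P3) (hpar : Par ε Hm Hp) (hε : ε ≤ 1 / 10 ^ 4) (y ν R : ℝ) (hR : 0 < R)
    (hy : y ∈ C) (harg : ∀ z ∈ Uo, ‖z - (y : ℝ)‖ ≤ R / 4 →
      |((cd.f z - ν) / qc y y z).arg| ≤ 3 * ε + ‖z - (y : ℝ)‖ / R) (W : Gap cd)
    (hX : |W.c - y| ≤ R / 40) (hv : vf cd W.c ≤ 11 / 10 * ε * |W.N - ν|) :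
    W.s ≤ 7 * ε * |W.c - y| := by
  obtain ⟨hε0, hHm, hHp⟩ := hpar
  obtain ⟨-, -, -, h4, -⟩ := hP2 Hm Hp C cd hHm
  obtain ⟨-, -, -, -, p5, -⟩ := hP1 Hm Hp C cd
  have hlt := W.lt
  have hs : 0 < W.s := by unfold Gap.s; linarith
  have hc : W.c = (W.a + W.b) / 2 := rfl
  have hss : W.s = W.b - W.a := rfl
  set X := |W.c - y| with hXdef
  have hXs : W.s / 2 ≤ X := by
    have hout := W.out y
    by_cases h1 : W.a < y
    · have h2 : ¬ y < W.b := fun h2 => hout ⟨h1, h2⟩ hy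
      have h3 : W.b ≤ y := not_lt.1 h2
      rw [hXdef, abs_sub_comm]
      refine le_trans ?_ (le_abs_self _)
      rw [hc, hss]
      linarith
    · have h3 : y ≤ W.a := not_lt.1 h1
      rw [hXdef]
      refine le_trans ?_ (le_abs_self _)
      rw [hc, hss]
      linarith
  have hX0 : 0 < X := by linarith
  set z : ℂ := (W.c : ℂ) + (X : ℂ) * I with hz
  have hzre : z.re = W.c := by simp [hz]
  have hzim : z.im = X := by simp [hz]
  have hzU : z ∈ Uo := by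
    change 0 < z.im
    rw [hzim]; exact hX0
  have hzy : ‖z - (y : ℝ)‖ ≤ 2 * X := by
    refine (Complex.norm_le_abs_re_add_abs_im _).trans ?_
    rw [Complex.sub_re, Complex.sub_im, Complex.ofReal_re, Complex.ofReal_im, hzre, hzim, sub_zero,
      abs_of_pos hX0]
    linarith
  have h5 := harg z hzU (by linarith)
  rw [qc_self y z hzU] at h5
  have h6 : ‖z - (y : ℝ)‖ / R ≤ 1 / 20 := by
    rw [div_le_iff₀ hR]
    linarith
  set w := (cd.f z - (ν : ℂ)) / (z - (y : ℂ)) with hw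
  have h7 : |w.im| ≤ 52 / 1000 * w.re := arg_small w (by
    refine h5.trans ?_
    linarith)
  have hne : z - (y : ℂ) ≠ 0 := by
    intro h
    have h1 : (z - (y : ℂ)).im = 0 := by rw [h]; rfl
    rw [Complex.sub_im, Complex.ofReal_im, hzim] at h1
    linarith
  have h8 : cd.f z - (ν : ℂ) = w * (z - (y : ℂ)) := (div_mul_cancel₀ _ hne).symm
  have h9 : (cd.f z).re - ν = w.re * (W.c - y) - w.im * X := by
    have := congrArg Complex.re h8
    rw [Complex.sub_re, Complex.mul_re, Complex.sub_re, Complex.sub_im, Complex.ofReal_re,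
      Complex.ofReal_re, Complex.ofReal_im, hzre, hzim, sub_zero] at this
    exact this
  have h10 : (cd.f z).im = w.re * X + w.im * (W.c - y) := by
    have := congrArg Complex.im h8
    rw [Complex.sub_im, Complex.mul_im, Complex.sub_re, Complex.sub_im, Complex.ofReal_re,
      Complex.ofReal_im, Complex.ofReal_im, hzre, hzim, sub_zero, sub_zero] at this
    exact this
  have hY : Yf cd W.c X = (cd.f z).im := rfl
  have hwre : 0 ≤ w.re := by
    have := (abs_nonneg w.im).trans h7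
    linarith
  have h11 : 948 / 1000 * (w.re * X) ≤ (cd.f z).im := by
    rw [h10]
    have h12 : |w.im * (W.c - y)| ≤ 52 / 1000 * w.re * X := by
      rw [abs_mul]
      exact mul_le_mul_of_nonneg_right h7 (abs_nonneg _)
    have := (abs_le.1 h12).1
    linarith
  have h13 : |(cd.f z).re - ν| ≤ 1052 / 1000 * (w.re * X) := by
    rw [h9]
    refine (abs_sub _ _).trans ?_
    rw [abs_mul, abs_mul, abs_of_nonneg hwre, abs_of_pos hX0]
    have := mul_le_mul_of_nonneg_right h7 hX0.le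
    change w.re * X + |w.im| * X ≤ _
    linarith
  have hNc : Nf cd W.c = W.N := W.lab W.c ⟨by rw [hc]; linarith, by rw [hc]; linarith⟩
  have h14 := p5 W.c X hX0
  rw [hNc, hY] at h14
  change |(cd.f z).re - W.N| ≤ (cd.f z).im at h14
  have hYpos : 0 < (cd.f z).im := cd.im_pos z hzU
  have h15 : |W.N - ν| ≤ 211 / 100 * (cd.f z).im := by
    have h16 : |W.N - ν| ≤ |(cd.f z).re - ν| + |(cd.f z).re - W.N| := by
      have : W.N - ν = ((cd.f z).re - ν) - ((cd.f z).re - W.N) := by ring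
      rw [this]
      exact abs_sub _ _
    linarith
  have h17 := (hP3 Hm Hp C cd W.a W.b W.N hlt W.lab).2.2 X hX0
  have h18 : (cd.f z).im ≤ Real.sqrt (X ^ 2 + (W.b - W.a) ^ 2 / 4) * W.kk := by
    refine le_trans ?_ h17
    have h19 : (cd.f z).im = (cd.f z - (W.N : ℂ)).im := by
      rw [Complex.sub_im, Complex.ofReal_im, sub_zero]
    rw [h19]
    exact (le_abs_self _).trans (Complex.abs_im_le_norm _)
  have h20 : W.kk = 2 * vf cd W.c / W.s := (h4 W).2.2.2.2.1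
  have h21 : Real.sqrt (X ^ 2 + (W.b - W.a) ^ 2 / 4) ≤ 15 / 10 * X := by
    rw [Real.sqrt_le_left (by positivity)]
    rw [← hss]
    nlinarith
  have hvpos : 0 < vf cd W.c := (h4 W).2.2.2.2.2.2
  have hkk : 0 < W.kk := (h4 W).2.2.2.2.2.1
  have h22 : (cd.f z).im * W.s ≤ 15 / 10 * X * (2 * vf cd W.c) := by
    have h23 : (cd.f z).im ≤ 15 / 10 * X * W.kk :=
      h18.trans (mul_le_mul_of_nonneg_right h21 hkk.le)
    rw [h20] at h23
    have h24 := mul_le_mul_of_nonneg_right h23 hs.le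
    have h25 : 15 / 10 * X * (2 * vf cd W.c / W.s) * W.s = 15 / 10 * X * (2 * vf cd W.c) := by
      field_simp
    linarith
  have h26 : vf cd W.c ≤ 11 / 10 * ε * (211 / 100 * (cd.f z).im) :=
    hv.trans (mul_le_mul_of_nonneg_left h15 (by positivity))
  have h27 : (cd.f z).im * W.s ≤ (cd.f z).im * (7 * ε * X) := by
    have h28 : 15 / 10 * X * (2 * vf cd W.c) ≤
      15 / 10 * X * (2 * (11 / 10 * ε * (211 / 100 * (cd.f z).im))) := by gcongr
    have h29 : 0 ≤ X * ε * (cd.f z).im := by positivity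
    nlinarith
  exact le_of_mul_le_mul_left h27 hYpos

/-- a value in (0,1) which is not a label is taken only once, on C -/
theorem uniq (hP2 : ST_P2) (hHm : 0 < Hm) (y ν : ℝ) (h0 : 0 < ν) (h1 : ν < 1)
    (hno : ∀ W : Gap cd, W.N ≠ ν) (hy : Nf cd y = ν) :
    y ∈ C ∧ ∀ t : ℝ, Nf cd t = ν → t = y := by
  obtain ⟨p1, p2, -, -, -, -, -, -, -, -, -, p12⟩ := hP2 Hm Hp C cd hHm
  have key : ∀ x : ℝ, Nf cd x = ν → x ∈ C := by
    intro x hx
    by_contra hxC
    obtain ⟨V, hV1, hV2⟩ := p2 x hxC (by rw [hx]; exact h0) (by rw [hx]; exact h1)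
    exact hno V (by rw [← hx]; exact (V.lab x ⟨hV1.le, hV2.le⟩).symm)
  refine ⟨key y hy, ?_⟩
  have key2 : ∀ s t : ℝ, s < t → Nf cd s = ν → Nf cd t = ν → False := by
    intro s t hst hs ht
    have hconst : ∀ x ∈ Icc s t, Nf cd x = ν := by
      intro x hx
      apply le_antisymm
      · rw [← ht]; exact mono cd x t hx.2
      · rw [← hs]; exact mono cd s x hx.1
    have h2 := p12 s t hst (fun x hx => by rw [hconst x hx, hs]) ((s + t) / 2)
      ⟨by linarith, by linarith⟩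
    have h3 : (s + t) / 2 ∈ C := key _ (hconst _ ⟨by linarith, by linarith⟩)
    have h4 := ((p1 ((s + t) / 2)).2.2.2).1 h3
    linarith
  intro t ht
  rcases lt_trichotomy t y with h | h | h
  · exact (key2 t y h ht hy).elim
  · exact h
  · exact (key2 y t h hy ht).elim

/-- continuity at y -/
theorem cty (y δ : ℝ) (hδ : 0 < δ) : ∃ r : ℝ, 0 < r ∧ ∀ t : ℝ, |t - y| ≤ r →
    |Nf cd t - Nf cd y| ≤ δ := by
  obtain ⟨r, hr, h⟩ := Metric.continuous_iff.1 (cont cd) y δ hδ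
  refine ⟨r / 2, by linarith, fun t ht => ?_⟩
  have h1 := h t (by rw [Real.dist_eq]; linarith)
  rw [Real.dist_eq] at h1
  exact h1.le

/-- choice of the point -/
theorem choose_y (hP2 : ST_P2) (hHm : 0 < Hm) (c0 : ℝ) (hc0 : c0 ∈ C) (η : ℝ) (hη : 0 < η) :
    ∃ (y ν : ℝ) (n' m' : ℤ), |y - c0| < η ∧ ν = n' + m' * gam + 1 / 2 ∧ 0 < ν ∧ ν < 1 ∧
      Nf cd y = ν := by
  obtain ⟨p1, p2, -, -, -, -, -, -, -, -, -, p12⟩ := hP2 Hm Hp C cd hHm
  have hAB : Nf cd (c0 - η / 2) < Nf cd (c0 + η / 2) := by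
    by_contra hcon
    have hcon' := not_lt.1 hcon
    have h1 : ∀ t ∈ Icc (c0 - η / 2) (c0 + η / 2), Nf cd t = Nf cd (c0 - η / 2) := by
      intro t ht
      apply le_antisymm
      · exact (mono cd t _ ht.2).trans hcon'
      · exact mono cd _ t ht.1
    have h2 := p12 (c0 - η / 2) (c0 + η / 2) (by linarith) h1 c0 ⟨by linarith, by linarith⟩
    have h3 := ((p1 c0).2.2.2).1 hc0
    linarith
  obtain ⟨n', m', h1, h2⟩ := dens _ _ hAB
  obtain ⟨y, hy, hyν⟩ := intermediate_value_Icc (show c0 - η / 2 ≤ c0 + η / 2 by linarith)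
    (cont cd).continuousOn ⟨h1.le, h2.le⟩
  refine ⟨y, n' + m' * gam + 1 / 2, n', m', ?_, rfl, ?_, ?_, hyν⟩
  · rw [abs_lt]
    exact ⟨by linarith [hy.1], by linarith [hy.2]⟩
  · exact lt_of_le_of_lt (p1 _).2.1 h1
  · exact lt_of_lt_of_le h2 (p1 _).2.2.1

theorem st_R20 (hP1 : ST_P1) (hP2 : ST_P2) (hP3 : ST_P3) (hQ3 : ST_Q3) (hR0 : ST_R0) : ST_R20 := by
  obtain ⟨e0, he0, hR0⟩ := hR0
  obtain ⟨K, hK, hQ3⟩ := hQ3
  refine ⟨min e0 (1 / 10 ^ 4), lt_min he0 (by norm_num), ?_⟩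
  intro ε Hm Hp C cd hpar hε c0 hc0 η hη
  have hpar' := hpar
  obtain ⟨hε0, hHm, hHp⟩ := hpar
  have hεe : ε ≤ e0 := hε.trans (min_le_left _ _)
  have hε4 : ε ≤ 1 / 10 ^ 4 := hε.trans (min_le_right _ _)
  obtain ⟨p1, p2, p3, p4, -⟩ := hP2 Hm Hp C cd hHm
  obtain ⟨y, ν, n', m', hyc, hν, hν0, hν1, hyν⟩ := choose_y cd hP2 hHm c0 hc0 η hη
  have hno : ∀ W : Gap cd, W.N ≠ ν := by
    intro W hW
    have h1 := sep cd n' m' ν hν W
    rw [hW, sub_self, abs_zero, mul_zero, zero_mul] at h1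
    linarith
  obtain ⟨hyC, huniq⟩ := uniq cd hP2 hHm y ν hν0 hν1 hno hyν
  -- δ
  set P := 1 + |Real.sqrt 5 * (m' : ℝ)| with hPdef
  have hP : 1 ≤ P := by
    have := abs_nonneg (Real.sqrt 5 * (m' : ℝ))
    linarith
  have hP0 : 0 < P := by linarith
  obtain ⟨δ, hδ0, hδ1, hδ2, hδ3⟩ : ∃ δ : ℝ, 0 < δ ∧ δ * P ≤ 1 / 1000 ∧ δ ≤ ν / 2 ∧
      δ ≤ (1 - ν) / 2 := by
    refine ⟨min (1 / (1000 * P)) (min (ν / 2) ((1 - ν) / 2)), ?_, ?_, ?_, ?_⟩
    · apply lt_min (by positivity) (lt_min (by linarith) (by linarith))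
    · have := min_le_left (1 / (1000 * P)) (min (ν / 2) ((1 - ν) / 2))
      calc _ ≤ 1 / (1000 * P) * P := mul_le_mul_of_nonneg_right this hP0.le
        _ = 1 / 1000 := by field_simp
    · exact (min_le_right _ _).trans (min_le_left _ _)
    · exact (min_le_right _ _).trans (min_le_right _ _)
  set δ2 := min δ (ε ^ 4 / 5) with hδ2def
  have hδ20 : 0 < δ2 := lt_min hδ0 (by positivity)
  have hδ2δ : δ2 ≤ δ := min_le_left _ _
  have hδ2ε : δ2 ≤ ε ^ 4 / 5 := min_le_right _ _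
  obtain ⟨R, hR, hRN⟩ := cty cd y δ hδ0
  obtain ⟨R2, hR2, hR2N⟩ := cty cd y δ2 hδ20
  rw [hyν] at hRN hR2N
  -- the window
  have hwin : ∀ t : ℝ, |t - y| ≤ R → vf cd t ≤ 11 / 10 * ε * |Nf cd t - ν| := by
    intro t ht
    by_cases hv : t ∈ C
    · rw [((p1 t).2.2.2).1 hv]
      positivity
    · have h1 := abs_le.1 (hRN t ht)
      obtain ⟨V, hV1, hV2⟩ := p2 t hv (by linarith) (by linarith)
      have hVN : Nf cd t = V.N := V.lab t ⟨hV1.le, hV2.le⟩
      have h2 := hRN t ht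
      rw [hVN] at h2 ⊢
      exact v_small cd hpar' hε4 hP2 n' m' ν δ hν hδ0 hδ1 V h2 t ⟨hV1.le, hV2.le⟩
  have harg : ∀ z ∈ Uo, ‖z - (y : ℝ)‖ ≤ R / 4 →
      |((cd.f z - ν) / qc y y z).arg| ≤ 3 * ε + ‖z - (y : ℝ)‖ / R := by
    have hyy : (y + y) / 2 = y := by ring
    have := (hQ3 ε Hm Hp C cd hHm hε0 (hε4.trans (by norm_num)) y y ν R le_rfl
      (by rw [sub_self]; exact hR.le) hR
      (fun t ht => by
        have : t = y := le_antisymm ht.2 ht.1
        rw [this]; exact hyν)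
      (fun t ht => by
        rw [huniq t ht]; exact ⟨le_rfl, le_rfl⟩)
      (fun t ht _ => by
        rw [hyy] at ht
        refine (hwin t ht).trans ?_
        have : 0 ≤ ε * |Nf cd t - ν| := by positivity
        linarith)).1
    rw [hyy] at this
    exact this
  -- gaps meeting a small neighbourhood lie in the window
  set R' := R / 40 with hR'
  have hR'0 : 0 < R' := by positivity
  have hright : ν < Nf cd (y + R') := by
    have h1 : ν ≤ Nf cd (y + R') := by rw [← hyν]; exact mono cd _ _ (by linarith)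
    refine lt_of_le_of_ne h1 ?_
    intro h2
    have := huniq _ h2.symm
    linarith
  have hleft : Nf cd (y - R') < ν := by
    have h1 : Nf cd (y - R') ≤ ν := by rw [← hyν]; exact mono cd _ _ (by linarith)
    refine lt_of_le_of_ne h1 ?_
    intro h2
    have := huniq _ h2
    linarith
  obtain ⟨r1, hr1, hr1N⟩ := cty cd y (min ((Nf cd (y + R') - ν) / 2) ((ν - Nf cd (y - R')) / 2))
    (lt_min (by linarith) (by linarith))
  rw [hyν] at hr1N
  set ρ1 := min r1 (R' / 2) with hρ1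
  have hρ10 : 0 < ρ1 := lt_min hr1 (by linarith)
  have hρ1R : ρ1 ≤ R' / 2 := min_le_right _ _
  have hN1 : Nf cd (y + ρ1) < Nf cd (y + R') := by
    have h1 := (abs_le.1 (hr1N (y + ρ1) (by
      rw [add_sub_cancel_left, abs_of_pos hρ10]; exact min_le_left _ _))).2
    have h2 := min_le_left ((Nf cd (y + R') - ν) / 2) ((ν - Nf cd (y - R')) / 2)
    linarith
  have hN2 : Nf cd (y - R') < Nf cd (y - ρ1) := by
    have h1 := (abs_le.1 (hr1N (y - ρ1) (by
      rw [sub_sub_cancel_left, abs_neg, abs_of_pos hρ10]; exact min_le_left _ _))).1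
    have h2 := min_le_right ((Nf cd (y + R') - ν) / 2) ((ν - Nf cd (y - R')) / 2)
    linarith
  have hloc : ∀ W : Gap cd, W.a ≤ y + ρ1 → y - ρ1 ≤ W.b → |W.c - y| ≤ R / 40 ∧
      W.s ≤ 7 * ε * |W.c - y| := by
    intro W hWa hWb
    have hlt := W.lt
    have hb : W.b ≤ y + R' := by
      by_contra hcon
      have hcon' := not_le.1 hcon
      have e1 := W.lab (y + ρ1) ⟨hWa, by linarith⟩
      have e2 := W.lab (y + R') ⟨by linarith, hcon'.le⟩
      rw [e1, e2] at hN1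
      exact lt_irrefl _ hN1
    have ha : y - R' ≤ W.a := by
      by_contra hcon
      have hcon' := not_le.1 hcon
      have e1 := W.lab (y - ρ1) ⟨by linarith, hWb⟩
      have e2 := W.lab (y - R') ⟨hcon'.le, by linarith⟩
      rw [e1, e2] at hN2
      exact lt_irrefl _ hN2
    have hc : W.c = (W.a + W.b) / 2 := rfl
    have hX : |W.c - y| ≤ R / 40 := by
      rw [abs_le, hc]
      exact ⟨by linarith, by linarith⟩
    refine ⟨hX, size cd hP1 hP2 hP3 hpar' hε4 y ν R hR hyC harg W hX ?_⟩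
    have h1 := hwin W.c (hX.trans (by linarith))
    have h2 : Nf cd W.c = W.N := W.lab W.c ⟨by rw [hc]; linarith, by rw [hc]; linarith⟩
    rw [h2] at h1
    exact h1
  -- ρ0
  have hε1 : ε ≤ 1 := hε4.trans (by norm_num)
  have hε3 : 0 < ε ^ 3 := by positivity
  set Q := 1 / ε ^ 3 + 1 with hQ
  have hQ0 : 0 < Q := by positivity
  refine ⟨y, hyc, min R2 ρ1 / Q, by positivity, ?_⟩
  intro l r hlr hz hmid
  have hz0 : 0 < r - l := by linarith
  have hzQ : (r - l) * Q ≤ min R2 ρ1 := by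
    have := mul_le_mul_of_nonneg_right hz hQ0.le
    rwa [div_mul_cancel₀ _ hQ0.ne'] at this
  have hzR2 : (r - l) / ε ^ 3 + (r - l) ≤ R2 := by
    have h1 : (r - l) / ε ^ 3 + (r - l) = (r - l) * Q := by rw [hQ]; ring
    rw [h1]
    exact hzQ.trans (min_le_left _ _)
  have hzρ : (r - l) / ε ^ 3 + (r - l) ≤ ρ1 := by
    have h1 : (r - l) / ε ^ 3 + (r - l) = (r - l) * Q := by rw [hQ]; ring
    rw [h1]
    exact hzQ.trans (min_le_right _ _)
  have hnear : ∀ t : ℝ, |t - (l + r) / 2| ≤ (r - l) / ε ^ 3 → |Nf cd t - ν| ≤ δ2 := by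
    intro t ht
    apply hR2N
    have h1 : t - y = (t - (l + r) / 2) + ((l + r) / 2 - y) := by ring
    rw [h1]
    refine (abs_add_le _ _).trans ?_
    linarith
  refine ⟨⟨?_, ?_⟩, ?_⟩
  · intro t ht
    have h1 := abs_le.1 ((hnear t ht).trans hδ2δ)
    exact ⟨by linarith, by linarith⟩
  · intro W hW
    obtain ⟨hW1, hW2⟩ := hW
    have hd : 0 < (r - l) / ε ^ 3 := by positivity
    have hlt := W.lt
    set t := max W.a ((l + r) / 2 - (r - l) / ε ^ 3) with ht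
    have ht1 : W.a ≤ t := le_max_left _ _
    have ht2 : t ≤ W.b := max_le hlt.le hW2
    have ht3 : |t - (l + r) / 2| ≤ (r - l) / ε ^ 3 := by
      rw [abs_le]
      constructor
      · have := le_max_right W.a ((l + r) / 2 - (r - l) / ε ^ 3)
        linarith
      · have : t ≤ (l + r) / 2 + (r - l) / ε ^ 3 := max_le hW1 (by linarith)
        linarith
    have h1 := hnear t ht3
    have h2 : Nf cd t = W.N := W.lab t ⟨ht1, ht2⟩
    rw [h2] at h1
    have h3 := mu_big cd n' m' ν δ hν hδ0 hδ1 W (h1.trans hδ2δ)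
    have h4 : |W.N - ν| ≤ ε ^ 4 / 5 := h1.trans hδ2ε
    have h5 : 0 ≤ |W.mu| := abs_nonneg _
    rw [div_le_iff₀ (by positivity)]
    nlinarith [mul_le_mul_of_nonneg_right h4 h5]
  · intro a b hab hwit
    obtain ⟨V, hVa, hVb⟩ := p3 a b hab
    obtain ⟨-, hw⟩ := hR0 ε a b l r hε0 hεe hab.1 hlr
    obtain ⟨w1, w2, w3, -⟩ := hw hwit
    have h16 : (r - l) / (16 * ε) ≤ (r - l) / ε ^ 3 := by
      apply div_le_div_of_nonneg_left hz0.le hε3
      have : ε ^ 3 ≤ ε := by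
        have : ε ^ 3 = ε * ε ^ 2 := by ring
        rw [this]
        have h2 : ε ^ 2 ≤ 1 := pow_le_one₀ hε0.le hε1
        nlinarith
      linarith
    have hm := abs_le.1 hmid
    obtain ⟨hX, hs⟩ := hloc V (by rw [hVa]; linarith) (by rw [hVb]; linarith)
    have hc : V.c = (a + b) / 2 := by rw [← hVa, ← hVb]; rfl
    have hss : V.s = b - a := by rw [← hVa, ← hVb]; rfl
    have hX2 : |V.c - y| ≤ (b - a) / 2 + (r - l) / (16 * ε) + (r - l) / 100 := by
      rw [abs_le, hc]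
      exact ⟨by linarith, by linarith⟩
    rw [hss] at hs
    have h17 : ε * ((r - l) / (16 * ε)) = (r - l) / 16 := by
      field_simp
    have h18 : 7 * ε * |V.c - y| ≤ 7 * ε * ((b - a) / 2 + (r - l) / (16 * ε) + (r - l) / 100) :=
      mul_le_mul_of_nonneg_left hX2 (by positivity)
    have h19 : 7 * ε * ((b - a) / 2 + (r - l) / (16 * ε) + (r - l) / 100) =
      7 / 2 * (ε * (b - a)) + 7 * (ε * ((r - l) / (16 * ε))) + 7 / 100 * (ε * (r - l)) := by ring
    rw [h17] at h19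
    have h20 : 0 < b - a := by linarith [hab.1]
    have h21 : ε * (b - a) ≤ 1 / 10 ^ 4 * (b - a) := mul_le_mul_of_nonneg_right hε4 h20.le
    have h22 : ε * (r - l) ≤ 1 / 10 ^ 4 * (r - l) := mul_le_mul_of_nonneg_right hε4 hz0.le
    nlinarith

end

end Pool.Agent.Helper78.CV.R20
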